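import Mathlib

set_option autoImplicit false

namespace Pool.Agent.Results.MP_ce2a64_co.Disproof

open SimpleGraph

/-- `f` is a radio labeling of `G`: `|f u - f v| ≥ diam G + 1 - d(u,v)` for all `u ≠ v`
(the inequality is in the integers). -/
def IsRadioLabeling {V : Type} (G : SimpleGraph V) (f : V → ℕ) : Prop :=
  ∀ u v : V, u ≠ v → (G.diam : ℤ) + 1 - (G.dist u v : ℤ) ≤ |(f u : ℤ) - (f v : ℤ)|

/-- `G` is radio graceful: some radio labeling has value set `{0, 1, ..., |V| - 1}`. -/
def RadioGraceful {V : Type} [Fintype V] (G : SimpleGraph V) : Prop :=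
  ∃ f : V → ℕ, IsRadioLabeling G f ∧ Set.range f = Set.Iio (Fintype.card V)

/-- block index: `0` for the vertex `0`, and `1, 2, 3` for the three blocks of four vertices. -/
def cls (i : Fin 13) : ℕ := (i.val + 3) / 4

/-- adjacency of the graph on 13 vertices as a Boolean. -/
def adjB (i j : Fin 13) : Bool :=
  if i = 0 then (decide (j ≠ 0) && decide (j.val % 4 = 0))
  else if j = 0 then decide (i.val % 4 = 0)
  else decide (cls i ≠ cls j)

/-- `K_{4,4,4}` together with a vertex joined to one vertex of each part. -/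
def G13 : SimpleGraph (Fin 13) where
  Adj i j := adjB i j = true
  symm := ⟨by
    have h : ∀ i j : Fin 13, adjB i j = true → adjB j i = true := by decide
    exact fun i j hij => h i j hij⟩
  loopless := ⟨by
    have h : ∀ i : Fin 13, ¬ adjB i i = true := by decide
    exact fun i hi => h i hi⟩

/-- distance table -/
def dd (i j : Fin 13) : ℕ := if i = j then 0 else if adjB i j then 1 else 2

lemma edist_le_two (i j : Fin 13) : G13.edist i j ≤ 2 := by
  have h : ∀ i j : Fin 13, i = j ∨ adjB i j = true ∨ ∃ k, adjB i k = true ∧ adjB k j = true := by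
    decide
  rcases h i j with h | h | ⟨k, h1, h2⟩
  · subst h; simp
  · have : G13.edist i j = 1 := edist_eq_one_iff_adj.2 h
    rw [this]; norm_num
  · have e1 : G13.edist i k = 1 := edist_eq_one_iff_adj.2 h1
    have e2 : G13.edist k j = 1 := edist_eq_one_iff_adj.2 h2
    calc G13.edist i j ≤ G13.edist i k + G13.edist k j := SimpleGraph.edist_triangle
      _ = 2 := by rw [e1, e2]; norm_num

lemma edist_eq (i j : Fin 13) : G13.edist i j = (dd i j : ℕ∞) := by
  unfold dd
  split_ifs with h1 h2
  · subst h1; simp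
  · exact edist_eq_one_iff_adj.2 h2
  · apply le_antisymm (edist_le_two i j)
    by_contra hlt
    push Not at hlt
    have h3 : G13.edist i j ≤ 1 := by
      have hlt2 : G13.edist i j < 1 + 1 := by
        have e : (1 : ℕ∞) + 1 = 2 := by norm_num
        rw [e]; exact hlt
      exact Order.le_of_lt_add_one hlt2
    rcases edist_le_one_iff_adj_or_eq.1 h3 with h | h
    · exact h2 h
    · exact h1 h

lemma ediam_le : G13.ediam ≤ 2 := ediam_le_of_edist_le edist_le_two

lemma ediam_ne_top : G13.ediam ≠ ⊤ := by
  intro h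
  have := ediam_le
  rw [h] at this
  exact absurd this (by decide)

lemma connected : G13.Connected := connected_of_ediam_ne_top ediam_ne_top

lemma dist_eq (i j : Fin 13) : G13.dist i j = dd i j := by
  have h := edist_eq i j
  unfold SimpleGraph.dist
  rw [h]; rfl

lemma diam_ge : 2 ≤ G13.diam := by
  have h := dist_le_diam ediam_ne_top (u := (1 : Fin 13)) (v := 2)
  rw [dist_eq] at h
  have e : dd 1 2 = 2 := by decide
  omega

/-- In a sequence where consecutive terms never change block unless one of them is the special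
vertex, the block is constant on stretches avoiding the special vertex. -/
lemma not_radioGraceful : ¬ RadioGraceful G13 := by
  rintro ⟨f, hf, hr⟩
  have hcard : Fintype.card (Fin 13) = 13 := by simp
  rw [hcard] at hr
  have hinj : Function.Injective f := by
    have hmaps : ∀ x : Fin 13, f x < 13 := fun x => by
      have : f x ∈ Set.range f := ⟨x, rfl⟩
      rw [hr] at this; exact this
    let f' : Fin 13 → Fin 13 := fun x => ⟨f x, hmaps x⟩
    have hsurj : Function.Surjective f' := by
      intro y
      have : y.val ∈ Set.range f := by rw [hr]; exact y.2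
      obtain ⟨x, hx⟩ := this
      exact ⟨x, Fin.ext hx⟩
    have hinj' := Finite.injective_iff_surjective.2 hsurj
    intro a b hab
    exact hinj' (Fin.ext hab)
  have hex : ∀ k : ℕ, k < 13 → ∃ x, f x = k := fun k hk => by
    have : k ∈ Set.range f := by rw [hr]; exact hk
    exact this
  -- consecutive labels: same block unless one vertex is `0`
  have hstep : ∀ x y : Fin 13, f y = f x + 1 → x ≠ 0 → y ≠ 0 → cls x = cls y := by
    intro x y hxy hx hy
    have hne : x ≠ y := by
      rintro rfl; omega
    have h := hf x y hne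
    rw [hxy] at h
    have habs : |((f x : ℕ) : ℤ) - ((f x + 1 : ℕ) : ℤ)| = 1 := by
      push_cast
      have : ((f x : ℤ) - ((f x : ℤ) + 1)) = -1 := by ring
      rw [this]; norm_num
    rw [habs, dist_eq] at h
    have hd := diam_ge
    have h2 : 2 ≤ dd x y := by omega
    by_contra hc
    have h3 : dd x y ≤ 1 := by
      unfold dd adjB
      simp [hne, hx, hy, hc]
    omega
  -- along a stretch avoiding `0`
  have hstretch : ∀ n : ℕ, ∀ x y : Fin 13, f y = f x + n →
      (∀ z : Fin 13, f x ≤ f z → f z ≤ f y → z ≠ 0) → cls x = cls y := by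
    intro n
    induction n with
    | zero =>
      intro x y hxy _
      have : x = y := hinj (by omega)
      rw [this]
    | succ n ih =>
      intro x y hxy hz
      have hlt : f x + n < 13 := by
        have : f y ∈ Set.range f := ⟨y, rfl⟩
        rw [hr] at this
        have h13 : f y < 13 := this
        omega
      obtain ⟨w, hw⟩ := hex (f x + n) hlt
      have h1 : cls x = cls w := ih x w hw (fun z h1 h2 => hz z h1 (by omega))
      have h2 : cls w = cls y := by
        apply hstep w y (by omega)
        · exact hz w (by omega) (by omega)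
        · exact hz y (by omega) (by omega)
      rw [h1, h2]
  -- two vertices on the same side of `0` are in the same block
  have hside : ∀ x y : Fin 13, f x ≤ f y → (f y < f 0 ∨ f 0 < f x) → cls x = cls y := by
    intro x y hxy h
    apply hstretch (f y - f x) x y (by omega)
    intro z h1 h2 hz
    subst hz
    omega
  have hne : ∀ x : Fin 13, x ≠ 0 → f x ≠ f 0 := fun x hx h => hx (hinj h)
  have h1 := hne 1 (by decide)
  have h5 := hne 5 (by decide)
  have h9 := hne 9 (by decide)
  have c15 : cls 1 ≠ cls 5 := by decide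
  have c19 : cls 1 ≠ cls 9 := by decide
  have c59 : cls 5 ≠ cls 9 := by decide
  have hpair : ∀ x y : Fin 13, (f x < f 0 ∧ f y < f 0) ∨ (f 0 < f x ∧ f 0 < f y) →
      cls x = cls y := by
    intro x y h
    rcases le_total (f x) (f y) with hle | hle
    · exact hside x y hle (by omega)
    · exact (hside y x hle (by omega)).symm
  rcases lt_or_gt_of_ne h1 with a | a <;> rcases lt_or_gt_of_ne h5 with b | b <;>
    rcases lt_or_gt_of_ne h9 with c | c
  · exact c15 (hpair 1 5 (by omega))
  · exact c15 (hpair 1 5 (by omega))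
  · exact c19 (hpair 1 9 (by omega))
  · exact c59 (hpair 5 9 (by omega))
  · exact c59 (hpair 5 9 (by omega))
  · exact c19 (hpair 1 9 (by omega))
  · exact c15 (hpair 1 5 (by omega))
  · exact c15 (hpair 1 5 (by omega))

/-- the radio graceful ordering of the 169 vertices of the square; the vertex `(a, b)` is coded
as `13 * a + b`. -/
def ord : List ℕ :=
  [116, 87, 102, 77, 114, 100, 90, 115, 101, 74, 89, 103, 113, 75, 12, 24, 61, 38, 49, 63, 25, 35, 62, 51, 37, 22, 64, 36, 48, 11, 23, 52, 50, 10, 129, 165, 153, 142, 167, 126, 155, 141, 166, 152, 128, 168, 139, 127, 154, 9, 140, 156, 124, 151, 161, 136, 125, 163, 135, 149, 164, 137, 123, 148, 138, 162, 150, 122, 130, 158, 147, 133, 157, 121, 145, 159, 134, 119, 144, 160, 120, 131, 143, 6, 20, 60, 44, 33, 21, 58, 31, 47, 59, 18, 34, 45, 57, 13, 32, 46, 8, 19, 39, 54, 30, 42, 53, 17, 29, 41, 56, 14, 28, 55, 43, 27, 16, 4, 40, 15, 26, 7, 70, 112, 84, 96, 73, 111, 97, 86, 5, 72, 99, 110, 83, 98, 71, 109, 85, 65, 94, 108, 79, 93, 107, 69, 80, 105, 95, 68, 106, 82, 66, 104, 81,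 92, 2, 117, 146, 132, 118, 3, 78, 67, 1, 91, 88, 76, 0]

/-- the inverse table -/
def pos : List ℕ :=
  [168, 164, 156, 161, 117, 130, 83, 121, 100, 49, 33, 29, 14, 97, 111, 119, 116, 107, 93, 101, 84, 88, 25, 30, 15, 20, 120, 115, 112, 108, 104, 90, 98, 87, 94, 21, 27, 24, 17, 102, 118, 109, 105, 114, 86, 95, 99, 91, 28, 18, 32, 23, 31, 106, 103, 113, 110, 96, 89, 92, 85, 16, 22, 19, 26, 139, 152, 163, 149, 145, 122, 136, 131, 126, 9, 13, 167, 3, 162, 142, 146, 154, 151, 134, 124, 138, 129, 1, 166, 10, 6, 165, 155, 143, 140, 148, 125, 128, 135, 132, 5, 8, 2, 11, 153, 147, 150, 144, 141, 137, 133, 127, 123, 12, 4, 7, 0, 157, 160, 77, 80, 73, 67, 62, 52, 56, 39, 47, 44, 34, 68, 81, 159, 71, 76, 58, 55, 61, 64, 46, 50, 41, 37, 82, 78, 74, 158, 70, 63, 59, 66, 53, 43, 36, 48, 40, 51, 72, 69, 75, 79, 54, 65, 57, 60, 35, 42, 38, 45]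

/-- label of `(a, b)` -/
def lab (p : Fin 13 × Fin 13) : ℕ := pos.getD (13 * p.1.val + p.2.val) 0

/-- vertex at position `i` -/
def vtx (i : ℕ) : Fin 13 × Fin 13 :=
  (Fin.ofNat 13 (ord.getD i 0 / 13), Fin.ofNat 13 (ord.getD i 0))

set_option maxRecDepth 100000 in
lemma lab_vtx : ∀ i : Fin 169, lab (vtx i.val) = i.val := by decide

set_option maxRecDepth 100000 in
lemma lab_lt : ∀ p : Fin 13 × Fin 13, lab p < 169 := by decide

/-- distance in the square, as a number -/
def d2 (p q : Fin 13 × Fin 13) : ℕ := dd p.1 q.1 + dd p.2 q.2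

set_option maxRecDepth 100000 in
lemma gap1 : ∀ i : Fin 168, 4 ≤ d2 (vtx i.val) (vtx (i.val + 1)) := by decide

set_option maxRecDepth 100000 in
lemma gap2 : ∀ i : Fin 167, 3 ≤ d2 (vtx i.val) (vtx (i.val + 2)) := by decide

set_option maxRecDepth 100000 in
lemma gap3 : ∀ i : Fin 166, 2 ≤ d2 (vtx i.val) (vtx (i.val + 3)) := by decide

lemma vtx_lab (p : Fin 13 × Fin 13) : vtx (lab p) = p := by
  -- the map `i ↦ vtx i` on `Fin 169` is injective, hence bijective
  let g : Fin 169 → Fin 13 × Fin 13 := fun i => vtx i.val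
  have hg : Function.Injective g := by
    intro i j hij
    have h1 := lab_vtx i
    have h2 := lab_vtx j
    have h3 : vtx i.val = vtx j.val := hij
    rw [h3] at h1
    exact Fin.ext (by omega)
  have hb : Function.Bijective g := by
    rw [Fintype.bijective_iff_injective_and_card]
    exact ⟨hg, by simp⟩
  obtain ⟨i, hi⟩ := hb.2 p
  have hi' : vtx i.val = p := hi
  rw [← hi', lab_vtx i]

lemma edist_sq (p q : Fin 13 × Fin 13) : (G13 □ G13).edist p q = (d2 p q : ℕ∞) := by
  rw [edist_boxProd, edist_eq, edist_eq]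
  unfold d2
  push_cast
  rfl

lemma dist_sq (p q : Fin 13 × Fin 13) : (G13 □ G13).dist p q = d2 p q := by
  have h := edist_sq p q
  unfold SimpleGraph.dist
  rw [h]; rfl

lemma dd_le (i j : Fin 13) : dd i j ≤ 2 := by
  unfold dd; split_ifs <;> omega

lemma diam_sq : (G13 □ G13).diam ≤ 4 := by
  have h : (G13 □ G13).ediam ≤ ((4 : ℕ) : ℕ∞) := by
    apply ediam_le_of_edist_le
    intro u v
    rw [edist_sq]
    have h1 := dd_le u.1 v.1
    have h2 := dd_le u.2 v.2
    have h3 : d2 u v ≤ 4 := by unfold d2; omega
    exact_mod_cast h3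
  unfold SimpleGraph.diam
  exact ENat.toNat_le_of_le_natCast h

lemma radio_key (p q : Fin 13 × Fin 13) (h : lab p < lab q) :
    5 ≤ d2 p q + (lab q - lab p) := by
  have hq := lab_lt q
  obtain ⟨k, hk⟩ : ∃ k, lab q = lab p + k := ⟨lab q - lab p, by omega⟩
  have hp1 : vtx (lab p) = p := vtx_lab p
  have hq1 : vtx (lab p + k) = q := by rw [← hk]; exact vtx_lab q
  have hne : p ≠ q := by rintro rfl; omega
  have hd1 : 1 ≤ d2 p q := by
    unfold d2
    have key : p.1 ≠ q.1 ∨ p.2 ≠ q.2 := by
      by_contra hc
      push Not at hc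
      exact hne (Prod.ext hc.1 hc.2)
    rcases key with hk | hk
    · have : 1 ≤ dd p.1 q.1 := by unfold dd; split_ifs <;> omega
      omega
    · have : 1 ≤ dd p.2 q.2 := by unfold dd; split_ifs <;> omega
      omega
  rcases Nat.lt_or_ge k 4 with hk4 | hk4
  · have hk0 : k = 1 ∨ k = 2 ∨ k = 3 := by omega
    rcases hk0 with rfl | rfl | rfl
    · have := gap1 ⟨lab p, by omega⟩
      simp only at this
      rw [hp1, hq1] at this
      omega
    · have := gap2 ⟨lab p, by omega⟩
      simp only at this
      rw [hp1, hq1] at this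
      omega
    · have := gap3 ⟨lab p, by omega⟩
      simp only at this
      rw [hp1, hq1] at this
      omega
  · omega

lemma radioGraceful_sq : RadioGraceful (G13 □ G13) := by
  refine ⟨lab, ?_, ?_⟩
  · intro u v huv
    have hd := diam_sq
    rw [dist_sq]
    have hne : lab u ≠ lab v := by
      intro h
      apply huv
      rw [← vtx_lab u, ← vtx_lab v, h]
    rcases lt_or_gt_of_ne hne with h | h
    · have hk := radio_key u v h
      have habs : |(lab u : ℤ) - (lab v : ℤ)| = (lab v : ℤ) - lab u := by
        rw [abs_sub_comm]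
        exact abs_of_pos (by omega)
      rw [habs]
      omega
    · have hk := radio_key v u h
      have habs : |(lab u : ℤ) - (lab v : ℤ)| = (lab u : ℤ) - lab v :=
        abs_of_pos (by omega)
      have hsymm : d2 v u = d2 u v := by
        have h1 := dist_sq v u
        rw [SimpleGraph.dist_comm, dist_sq] at h1
        exact h1.symm
      rw [habs]
      omega
  · have hcard : Fintype.card (Fin 13 × Fin 13) = 169 := by simp
    rw [hcard]
    ext k
    constructor
    · rintro ⟨p, rfl⟩
      exact lab_lt p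
    · intro hk
      have hk' : k < 169 := hk
      exact ⟨vtx k, lab_vtx ⟨k, hk'⟩⟩

/-- There is a finite connected simple graph `G` which is not radio graceful although its
Cartesian square `G □ G` is radio graceful. -/
theorem result : ∃ (V : Type) (_ : Fintype V) (G : SimpleGraph V),
    G.Connected ∧ ¬ RadioGraceful G ∧ RadioGraceful (G □ G) :=
  ⟨Fin 13, inferInstance, G13, connected, not_radioGraceful, radioGraceful_sq⟩

end Pool.Agent.Results.MP_ce2a64_co.Disproof
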